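import Mathlib
import Pool.Agent.V11278.Density

/-!
# The feasibility set of the words `1, 10, 1100` is not semi-algebraic
-/

set_option autoImplicit false

namespace Pool.Agent.Results.MP_76c07a_co.NotSemialgebraic

open MeasureTheory Set Pool.Agent.V11278.Density

/-- A subset of `ℝ^k` is semi-algebraic if it is a finite union of sets of the form
`{x | p x = 0, q₁ x > 0, …, q_r x > 0}` with polynomials `p, q_j`. -/
def IsSemialgebraic {k : ℕ} (S : Set (Fin k → ℝ)) : Prop :=
  ∃ T : List (MvPolynomial (Fin k) ℝ × List (MvPolynomial (Fin k) ℝ)),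
    S = {x | ∃ c ∈ T, MvPolynomial.eval x c.1 = 0 ∧ ∀ q ∈ c.2, 0 < MvPolynomial.eval x q}

/-! ### The densities -/

/-- `∫_x^1 (1 - f)`. -/
noncomputable def tail (f : ℝ → ℝ) (x : ℝ) : ℝ := 1 - x - cdf f 1 + cdf f x

lemma tail_continuous {f : ℝ → ℝ} (hf : IsDensity f) : Continuous (tail f) := by
  have hc := cdf_continuous hf
  unfold tail
  fun_prop

lemma tail_ac {f : ℝ → ℝ} (hf : IsDensity f) : AbsolutelyContinuousOnInterval (tail f) 0 1 :=
  (((const_ac 1 0 1).fun_sub (id_ac 0 1)).fun_sub (const_ac (cdf f 1) 0 1)).fun_add (cdf_ac hf)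

lemma tail_deriv {f : ℝ → ℝ} {x : ℝ} (h : HasDerivAt (cdf f) (f x) x) :
    HasDerivAt (tail f) (f x - 1) x := by
  have := (((hasDerivAt_const x (1 : ℝ)).sub (hasDerivAt_id x)).sub
    (hasDerivAt_const x (cdf f 1))).add h
  refine this.congr_deriv ?_
  ring

lemma tail_bounds {f : ℝ → ℝ} (hf : IsDensity f) {x : ℝ} (hx : x ∈ Icc (0 : ℝ) 1) :
    0 ≤ tail f x ∧ tail f x ≤ 1 - cdf f 1 := by
  have h1 := cdf_lip hf hx.2
  have h2 := cdf_lip hf hx.1
  rw [cdf_zero] at h2
  unfold tail
  constructor <;> linarith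

lemma rho_1 (f : ℝ → ℝ) : rho [true] f = cdf f 1 := by
  unfold rho cdf
  simp [Psi, letter]

lemma rho_10 {f : ℝ → ℝ} (hf : IsDensity f) :
    rho [true, false] f = 2 * ∫ x in (0 : ℝ)..1, f x * tail f x := by
  unfold rho
  have : Psi f [true, false] 0 = ∫ x in (0 : ℝ)..1, f x * tail f x := by
    rw [Psi]
    apply intervalIntegral.integral_congr
    intro y _
    simp only [letter, if_true]
    rw [Psi_zero hf]
    rfl
  rw [this]
  simp

lemma Psi_00 {f : ℝ → ℝ} (hf : IsDensity f) {x : ℝ} (hx : x ∈ Icc (0 : ℝ) 1) :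
    Psi f [false, false] x = tail f x ^ 2 / 2 := by
  have hsub : uIcc x 1 ⊆ uIcc (0 : ℝ) 1 := by
    rw [uIcc_of_le hx.2, uIcc_of_le zero_le_one]
    exact Icc_subset_Icc_left hx.1
  have h1 : Psi f [false, false] x = ∫ y in x..1, (1 - f y) * tail f y := by
    rw [Psi]
    apply intervalIntegral.integral_congr
    intro y _
    simp only [letter]
    rw [Psi_zero hf]
    simp [tail]
  have h2 : ∫ y in x..1, (1 - f y) * tail f y =
      tail f 1 * tail f 1 * (-(1 / 2)) - tail f x * tail f x * (-(1 / 2)) := by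
    refine ftc (Φ := fun y => tail f y * tail f y * (-(1 / 2))) ?_ ?_
    · exact (((tail_ac hf).fun_mul (tail_ac hf)).fun_mul (const_ac _ 0 1)).mono hsub
    · filter_upwards [cdf_deriv hf] with y hy hy'
      have hG := tail_deriv (hy (hsub hy'))
      have := (hG.mul hG).mul_const (-(1 / 2) : ℝ)
      refine this.congr_deriv ?_
      ring
  have h3 : tail f 1 = 0 := by simp [tail]
  rw [h1, h2, h3]
  ring

lemma rho_1100 {f : ℝ → ℝ} (hf : IsDensity f) :
    rho [true, true, false, false] f =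
      12 * ∫ x in (0 : ℝ)..1, f x * (cdf f x * tail f x ^ 2) := by
  have hT := tail_continuous hf
  have h1 : Psi f [true, true, false, false] 0 =
      ∫ x in (0 : ℝ)..1, f x * ∫ y in x..1, f y * (tail f y ^ 2 / 2) := by
    rw [Psi]
    apply intervalIntegral.integral_congr
    intro x hx
    rw [uIcc_of_le zero_le_one] at hx
    simp only [letter, if_true]
    congr 1
    rw [Psi]
    apply intervalIntegral.integral_congr
    intro y hy
    rw [uIcc_of_le hx.2] at hy
    simp only [letter, if_true]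
    rw [Psi_00 hf ⟨hx.1.trans hy.1, hy.2⟩]
  unfold rho
  rw [h1, swap hf ((hf.intervalIntegrable 0 1).mul_continuousOn
    (by fun_prop : Continuous fun y => tail f y ^ 2 / 2).continuousOn)]
  have h2 : ∫ x in (0 : ℝ)..1, cdf f x * (f x * (tail f x ^ 2 / 2)) =
      (1 / 2) * ∫ x in (0 : ℝ)..1, f x * (cdf f x * tail f x ^ 2) := by
    rw [← intervalIntegral.integral_const_mul]
    apply intervalIntegral.integral_congr
    intro x _
    simp only
    ring
  rw [h2]
  simp only [List.length_cons, List.length_nil, Nat.reduceAdd, Nat.factorial, Nat.succ_eq_add_one,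
    Nat.cast_mul, Nat.cast_ofNat, Nat.cast_one]
  norm_num
  ring

/-! ### Change of variables -/

lemma subst {f : ℝ → ℝ} (hf : IsDensity f) {m : ℝ → ℝ} (hm : Continuous m) :
    ∫ x in (0 : ℝ)..1, f x * m (cdf f x) = ∫ u in (0 : ℝ)..(cdf f 1), m u := by
  have hcd := cdf_continuous hf
  set M : ℝ → ℝ := fun u => ∫ t in (0 : ℝ)..u, m t with hM
  have hMd : ∀ u, HasDerivAt M (m u) u := fun u =>
    intervalIntegral.integral_hasDerivAt_right (hm.intervalIntegrable _ _)
      hm.stronglyMeasurable.stronglyMeasurableAtFilter hm.continuousAt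
  obtain ⟨C, hC⟩ := (isCompact_Icc (a := (0 : ℝ)) (b := 1)).exists_bound_of_continuousOn
    hm.continuousOn
  have hC0 : 0 ≤ C := (norm_nonneg _).trans (hC 0 ⟨le_rfl, zero_le_one⟩)
  have hrange : ∀ x ∈ Icc (0 : ℝ) 1, cdf f x ∈ Icc (0 : ℝ) 1 := by
    intro x hx
    have h1 := cdf_mono hf hx.1
    have h2 := cdf_lip hf hx.1
    rw [cdf_zero] at h1 h2
    exact ⟨h1, by linarith [hx.2]⟩
  have hac : AbsolutelyContinuousOnInterval (fun x => M (cdf f x)) 0 1 := by
    have hl : LipschitzOnWith (Real.toNNReal C) (fun x => M (cdf f x)) (uIcc 0 1) := by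
      rw [uIcc_of_le zero_le_one]
      apply LipschitzOnWith.of_dist_le_mul
      intro x hx y hy
      rw [Real.coe_toNNReal _ hC0, Real.dist_eq, Real.dist_eq]
      have h1 : M (cdf f x) - M (cdf f y) = ∫ t in (cdf f y)..(cdf f x), m t :=
        intervalIntegral.integral_interval_sub_left (hm.intervalIntegrable _ _)
          (hm.intervalIntegrable _ _)
      rw [h1, ← Real.norm_eq_abs]
      have h2 : ‖∫ t in (cdf f y)..(cdf f x), m t‖ ≤ C * |cdf f x - cdf f y| := by
        apply intervalIntegral.norm_integral_le_of_norm_le_const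
        intro t ht
        apply hC
        have ht' := uIoc_subset_uIcc ht
        have h3 : uIcc (cdf f y) (cdf f x) ⊆ Icc 0 1 :=
          uIcc_subset_Icc (hrange y hy) (hrange x hx)
        exact h3 ht'
      refine h2.trans (mul_le_mul_of_nonneg_left ?_ hC0)
      rcases le_total x y with h | h
      · rw [abs_sub_comm, abs_of_nonneg (sub_nonneg.2 (cdf_mono hf h)), abs_sub_comm,
          abs_of_nonneg (sub_nonneg.2 h)]
        exact cdf_lip hf h
      · rw [abs_of_nonneg (sub_nonneg.2 (cdf_mono hf h)), abs_of_nonneg (sub_nonneg.2 h)]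
        exact cdf_lip hf h
    exact hl.absolutelyContinuousOnInterval
  have h := ftc (Φ := fun x => M (cdf f x)) (φ := fun x => f x * m (cdf f x)) hac (by
    filter_upwards [cdf_deriv hf] with x hx hx'
    have := (hMd (cdf f x)).comp x (hx hx')
    refine this.congr_deriv ?_
    ring)
  rw [h, cdf_zero]
  simp [hM]

/-! ### The lower bound -/

/-- The extremal profile. -/
noncomputable def prof (κ u : ℝ) : ℝ := κ / max u (2 * κ)

lemma prof_continuous {κ : ℝ} (hκ : 0 < κ) : Continuous (prof κ) := by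
  unfold prof
  refine continuous_const.div (by fun_prop) fun u => ?_
  have : 0 < max u (2 * κ) := lt_max_of_lt_right (by linarith)
  exact this.ne'

lemma prof_min {κ u γ : ℝ} (hκ : 0 < κ) (hu : 0 ≤ u) (h1 : γ ≤ 1 / 2) :
    u * prof κ u ^ 2 - 2 * κ * prof κ u ≤ u * γ ^ 2 - 2 * κ * γ := by
  unfold prof
  rcases le_total u (2 * κ) with h | h
  · rw [max_eq_right h]
    have e : κ / (2 * κ) = 1 / 2 := by field_simp
    rw [e]
    have : 0 ≤ (1 / 2 - γ) * (2 * κ - u * (1 / 2 + γ)) := by
      apply mul_nonneg (by linarith)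
      nlinarith
    nlinarith
  · rw [max_eq_left h]
    have hu' : 0 < u := by linarith
    have e : u * γ ^ 2 - 2 * κ * γ - (u * (κ / u) ^ 2 - 2 * κ * (κ / u)) =
        u * (γ - κ / u) ^ 2 := by
      field_simp
      ring
    have : 0 ≤ u * (γ - κ / u) ^ 2 := by positivity
    linarith

/-- The value of the area functional on the extremal profile. -/
noncomputable def areaVal (κ : ℝ) : ℝ := ∫ u in (0 : ℝ)..(1 / 2), prof κ u

/-- The value of the second functional on the extremal profile. -/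
noncomputable def quadVal (κ : ℝ) : ℝ := ∫ u in (0 : ℝ)..(1 / 2), u * prof κ u ^ 2

lemma lower {f : ℝ → ℝ} (hf : IsDensity f) {κ : ℝ} (hκ : 0 < κ) (h1 : cdf f 1 = 1 / 2)
    (hA : ∫ x in (0 : ℝ)..1, f x * tail f x = areaVal κ) :
    quadVal κ ≤ ∫ x in (0 : ℝ)..1, f x * (cdf f x * tail f x ^ 2) := by
  have hc := cdf_continuous hf
  have hT := tail_continuous hf
  have hp := prof_continuous hκ
  have hm : Continuous fun u => u * prof κ u ^ 2 - 2 * κ * prof κ u := by fun_prop
  have h2 := subst hf hm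
  rw [h1] at h2
  have h3 : ∫ u in (0 : ℝ)..(1 / 2), (u * prof κ u ^ 2 - 2 * κ * prof κ u) =
      quadVal κ - 2 * κ * areaVal κ := by
    rw [intervalIntegral.integral_sub, intervalIntegral.integral_const_mul]
    · rfl
    · exact Continuous.intervalIntegrable (by fun_prop) _ _
    · exact Continuous.intervalIntegrable (by fun_prop) _ _
  have h4 : ∫ x in (0 : ℝ)..1, f x * (cdf f x * prof κ (cdf f x) ^ 2 - 2 * κ * prof κ (cdf f x)) ≤
      ∫ x in (0 : ℝ)..1, (f x * (cdf f x * tail f x ^ 2) - 2 * κ * (f x * tail f x)) := by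
    apply intervalIntegral.integral_mono_on zero_le_one
    · exact (hf.intervalIntegrable 0 1).mul_continuousOn
        (by fun_prop : Continuous _).continuousOn
    · exact ((hf.intervalIntegrable 0 1).mul_continuousOn
        (by fun_prop : Continuous _).continuousOn).sub
        (((hf.intervalIntegrable 0 1).mul_continuousOn hT.continuousOn).const_mul _)
    · intro x hx
      have hb := tail_bounds hf hx
      rw [h1] at hb
      have hu : 0 ≤ cdf f x := by
        have := cdf_mono hf hx.1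
        rwa [cdf_zero] at this
      have := mul_le_mul_of_nonneg_left
        (prof_min (γ := tail f x) hκ hu (by linarith [hb.2])) (hf.2 x).1
      linarith
  rw [intervalIntegral.integral_sub ((hf.intervalIntegrable 0 1).mul_continuousOn
      (by fun_prop : Continuous _).continuousOn)
      (((hf.intervalIntegrable 0 1).mul_continuousOn hT.continuousOn).const_mul _),
    intervalIntegral.integral_const_mul, hA] at h4
  rw [h3] at h2
  linarith

/-! ### The extremal density -/

/-- The extremal density. -/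
noncomputable def ext (κ x : ℝ) : ℝ :=
  if x ≤ 2 * κ then 1
  else if x ≤ 1 - 2 * κ then (1 + (x - 1 / 2) / √((x - 1 / 2) ^ 2 + 4 * κ)) / 2
  else 0

lemma ext_isDensity {κ : ℝ} (hκ : 0 < κ) : IsDensity (ext κ) := by
  refine ⟨?_, fun x => ?_⟩
  · have hc : Continuous fun x : ℝ => (1 + (x - 1 / 2) / √((x - 1 / 2) ^ 2 + 4 * κ)) / 2 := by
      refine (continuous_const.add (Continuous.div (by fun_prop) (by fun_prop) fun x => ?_)).div_const 2
      have : 0 < √((x - 1 / 2) ^ 2 + 4 * κ) := Real.sqrt_pos.2 (by positivity)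
      exact this.ne'
    exact Measurable.ite measurableSet_Iic measurable_const
      (Measurable.ite measurableSet_Iic hc.measurable measurable_const)
  · unfold ext
    have hs : 0 < √((x - 1 / 2) ^ 2 + 4 * κ) := Real.sqrt_pos.2 (by positivity)
    have h1 : |x - 1 / 2| ≤ √((x - 1 / 2) ^ 2 + 4 * κ) := by
      apply Real.le_sqrt_of_sq_le
      rw [sq_abs]
      linarith
    rw [abs_le] at h1
    have h2 : (x - 1 / 2) / √((x - 1 / 2) ^ 2 + 4 * κ) ≤ 1 := by
      rw [div_le_one hs]
      exact h1.2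
    have h3 : -1 ≤ (x - 1 / 2) / √((x - 1 / 2) ^ 2 + 4 * κ) := by
      rw [le_div_iff₀ hs]
      linarith [h1.1]
    split_ifs
    · norm_num
    · constructor <;> linarith
    · norm_num

lemma hasDerivAt_F {κ : ℝ} (hκ : 0 < κ) (x : ℝ) :
    HasDerivAt (fun x : ℝ => ((x - 1 / 2) + √((x - 1 / 2) ^ 2 + 4 * κ)) / 2)
      ((1 + (x - 1 / 2) / √((x - 1 / 2) ^ 2 + 4 * κ)) / 2) x := by
  have hpos : 0 < (x - 1 / 2) ^ 2 + 4 * κ := by positivity
  have h1 : HasDerivAt (fun x : ℝ => x - 1 / 2) 1 x := (hasDerivAt_id x).sub_const _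
  have h2 : HasDerivAt (fun x : ℝ => (x - 1 / 2) ^ 2 + 4 * κ) (2 * (x - 1 / 2)) x := by
    have := (h1.pow 2).add_const (4 * κ)
    refine this.congr_deriv ?_
    simp
  have h3 := h2.sqrt hpos.ne'
  refine ((h1.add h3).div_const 2).congr_deriv ?_
  have hs : 0 < √((x - 1 / 2) ^ 2 + 4 * κ) := Real.sqrt_pos.2 hpos
  field_simp

lemma cdf_ext {κ : ℝ} (hκ : 0 < κ) (hκ' : κ < 1 / 4) :
    (∀ y, 0 ≤ y → y ≤ 2 * κ → cdf (ext κ) y = y) ∧
    (∀ y, 2 * κ ≤ y → y ≤ 1 - 2 * κ →
      cdf (ext κ) y = ((y - 1 / 2) + √((y - 1 / 2) ^ 2 + 4 * κ)) / 2) ∧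
    (∀ y, 1 - 2 * κ ≤ y → cdf (ext κ) y = 1 / 2) := by
  have hd := ext_isDensity hκ
  have h1 : ∀ y, 0 ≤ y → y ≤ 2 * κ → cdf (ext κ) y = y := by
    intro y hy0 hy
    unfold cdf
    have : ∫ t in (0 : ℝ)..y, ext κ t = ∫ _t in (0 : ℝ)..y, (1 : ℝ) := by
      apply intervalIntegral.integral_congr_ae
      filter_upwards with t ht
      rw [uIoc_of_le hy0] at ht
      exact if_pos (ht.2.trans hy)
    rw [this]
    simp
  have e0 : √((2 * κ - 1 / 2) ^ 2 + 4 * κ) = 2 * κ + 1 / 2 := by
    rw [show (2 * κ - 1 / 2) ^ 2 + 4 * κ = (2 * κ + 1 / 2) ^ 2 by ring]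
    exact Real.sqrt_sq (by linarith)
  have e1 : √((1 - 2 * κ - 1 / 2) ^ 2 + 4 * κ) = 2 * κ + 1 / 2 := by
    rw [show (1 - 2 * κ - 1 / 2) ^ 2 + 4 * κ = (2 * κ + 1 / 2) ^ 2 by ring]
    exact Real.sqrt_sq (by linarith)
  have h2 : ∀ y, 2 * κ ≤ y → y ≤ 1 - 2 * κ →
      cdf (ext κ) y = ((y - 1 / 2) + √((y - 1 / 2) ^ 2 + 4 * κ)) / 2 := by
    intro y hy0 hy
    have e := cdf_sub hd (2 * κ) y
    have h3 : ∫ t in (2 * κ)..y, ext κ t =
        ∫ t in (2 * κ)..y, (1 + (t - 1 / 2) / √((t - 1 / 2) ^ 2 + 4 * κ)) / 2 := by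
      apply intervalIntegral.integral_congr_ae
      filter_upwards with t ht
      rw [uIoc_of_le hy0] at ht
      unfold ext
      rw [if_neg (not_le.2 ht.1), if_pos (ht.2.trans hy)]
    have h4 : ∫ t in (2 * κ)..y, (1 + (t - 1 / 2) / √((t - 1 / 2) ^ 2 + 4 * κ)) / 2 =
        ((y - 1 / 2) + √((y - 1 / 2) ^ 2 + 4 * κ)) / 2 -
        ((2 * κ - 1 / 2) + √((2 * κ - 1 / 2) ^ 2 + 4 * κ)) / 2 := by
      apply intervalIntegral.integral_eq_sub_of_hasDerivAt (fun t _ => hasDerivAt_F hκ t)
      refine (Continuous.intervalIntegrable ?_ _ _)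
      refine (continuous_const.add (Continuous.div (by fun_prop) (by fun_prop) fun x => ?_)).div_const 2
      have : 0 < √((x - 1 / 2) ^ 2 + 4 * κ) := Real.sqrt_pos.2 (by positivity)
      exact this.ne'
    rw [h3, h4, e0, h1 (2 * κ) (by linarith) le_rfl] at e
    linarith
  refine ⟨h1, h2, ?_⟩
  intro y hy0
  have e := cdf_sub hd (1 - 2 * κ) y
  have h3 : ∫ t in (1 - 2 * κ)..y, ext κ t = ∫ _t in (1 - 2 * κ)..y, (0 : ℝ) := by
    apply intervalIntegral.integral_congr_ae
    filter_upwards with t ht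
    rw [uIoc_of_le hy0] at ht
    unfold ext
    rw [if_neg (not_le.2 (lt_of_le_of_lt (by linarith) ht.1)), if_neg (not_le.2 ht.1)]
  rw [h3, h2 (1 - 2 * κ) (by linarith) le_rfl, e1] at e
  simp at e
  linarith

lemma ext_tail {κ : ℝ} (hκ : 0 < κ) (hκ' : κ < 1 / 4) {x : ℝ} (hx : x ∈ Icc (0 : ℝ) 1) :
    ext κ x = 0 ∨ tail (ext κ) x = prof κ (cdf (ext κ) x) := by
  obtain ⟨h1, h2, h3⟩ := cdf_ext hκ hκ'
  have h4 : cdf (ext κ) 1 = 1 / 2 := h3 1 (by linarith)
  rcases le_or_gt x (2 * κ) with a | a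
  · right
    unfold tail prof
    rw [h4, h1 x hx.1 a, max_eq_right a]
    field_simp
    ring
  · rcases le_or_gt x (1 - 2 * κ) with b | b
    · right
      have hF : 2 * κ ≤ cdf (ext κ) x := by
        have := cdf_mono (ext_isDensity hκ) a.le
        rwa [h1 (2 * κ) (by linarith) le_rfl] at this
      unfold tail prof
      rw [h4, max_eq_left hF]
      have hF0 : 0 < cdf (ext κ) x := by linarith
      rw [eq_div_iff hF0.ne', h2 x a.le b]
      have hs := Real.sq_sqrt (by positivity : 0 ≤ (x - 1 / 2) ^ 2 + 4 * κ)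
      nlinarith
    · left
      unfold ext
      rw [if_neg (not_le.2 a), if_neg (not_le.2 b)]

lemma ext_area {κ : ℝ} (hκ : 0 < κ) (hκ' : κ < 1 / 4) :
    ∫ x in (0 : ℝ)..1, ext κ x * tail (ext κ) x = areaVal κ := by
  have h := subst (ext_isDensity hκ) (prof_continuous hκ)
  rw [(cdf_ext hκ hκ').2.2 1 (by linarith)] at h
  unfold areaVal
  rw [← h]
  apply intervalIntegral.integral_congr
  intro x hx
  rw [uIcc_of_le zero_le_one] at hx
  simp only
  rcases ext_tail hκ hκ' hx with h0 | h0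
  · rw [h0, zero_mul, zero_mul]
  · rw [h0]

lemma ext_quad {κ : ℝ} (hκ : 0 < κ) (hκ' : κ < 1 / 4) :
    ∫ x in (0 : ℝ)..1, ext κ x * (cdf (ext κ) x * tail (ext κ) x ^ 2) = quadVal κ := by
  have hp := prof_continuous hκ
  have h := subst (ext_isDensity hκ) (by fun_prop : Continuous fun u => u * prof κ u ^ 2)
  rw [(cdf_ext hκ hκ').2.2 1 (by linarith)] at h
  unfold quadVal
  rw [← h]
  apply intervalIntegral.integral_congr
  intro x hx
  rw [uIcc_of_le zero_le_one] at hx
  simp only
  rcases ext_tail hκ hκ' hx with h0 | h0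
  · rw [h0, zero_mul, zero_mul]
  · rw [h0]

lemma areaVal_eq {κ : ℝ} (hκ : 0 < κ) (hκ' : κ < 1 / 4) :
    areaVal κ = κ * (1 + Real.log (1 / (4 * κ))) := by
  have hp := prof_continuous hκ
  unfold areaVal
  rw [← intervalIntegral.integral_add_adjacent_intervals (hp.intervalIntegrable 0 (2 * κ))
    (hp.intervalIntegrable (2 * κ) (1 / 2))]
  have h1 : ∫ u in (0 : ℝ)..(2 * κ), prof κ u = ∫ _u in (0 : ℝ)..(2 * κ), (1 / 2 : ℝ) := by
    apply intervalIntegral.integral_congr
    intro u hu
    rw [uIcc_of_le (by linarith)] at hu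
    simp only [prof]
    rw [max_eq_right hu.2]
    field_simp
  have h2 : ∫ u in (2 * κ)..(1 / 2), prof κ u = ∫ u in (2 * κ)..(1 / 2), κ * (1 / u) := by
    apply intervalIntegral.integral_congr
    intro u hu
    rw [uIcc_of_le (by linarith)] at hu
    simp only [prof]
    rw [max_eq_left hu.1]
    ring
  rw [h1, h2, intervalIntegral.integral_const_mul, integral_one_div_of_pos (by linarith) (by norm_num)]
  have e : (1 / 2 : ℝ) / (2 * κ) = 1 / (4 * κ) := by
    field_simp
    norm_num
  rw [e]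
  simp
  ring

lemma quadVal_eq {κ : ℝ} (hκ : 0 < κ) (hκ' : κ < 1 / 4) :
    quadVal κ = κ ^ 2 * (1 / 2 + Real.log (1 / (4 * κ))) := by
  have hp := prof_continuous hκ
  have hq : Continuous fun u => u * prof κ u ^ 2 := by fun_prop
  unfold quadVal
  rw [← intervalIntegral.integral_add_adjacent_intervals (hq.intervalIntegrable 0 (2 * κ))
    (hq.intervalIntegrable (2 * κ) (1 / 2))]
  have h1 : ∫ u in (0 : ℝ)..(2 * κ), u * prof κ u ^ 2 = ∫ u in (0 : ℝ)..(2 * κ), u / 4 := by
    apply intervalIntegral.integral_congr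
    intro u hu
    rw [uIcc_of_le (by linarith)] at hu
    simp only [prof]
    rw [max_eq_right hu.2]
    field_simp
    norm_num
  have h2 : ∫ u in (2 * κ)..(1 / 2), u * prof κ u ^ 2 = ∫ u in (2 * κ)..(1 / 2), κ ^ 2 * (1 / u) := by
    apply intervalIntegral.integral_congr
    intro u hu
    rw [uIcc_of_le (by linarith)] at hu
    have hu0 : 0 < u := by linarith [hu.1]
    simp only [prof]
    rw [max_eq_left hu.1]
    field_simp
  rw [h1, h2, intervalIntegral.integral_const_mul, integral_one_div_of_pos (by linarith) (by norm_num)]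
  have e : (1 / 2 : ℝ) / (2 * κ) = 1 / (4 * κ) := by
    field_simp
    norm_num
  rw [e, intervalIntegral.integral_div, integral_id]
  ring

/-! ### Polynomials in a small and a very small variable -/

open Polynomial in
lemma eval_cont (R : ℝ[X][X]) :
    Continuous fun q : ℝ × ℝ => (R.map (evalRingHom q.2)).eval q.1 := by
  have h : ∀ q : ℝ × ℝ, (R.map (evalRingHom q.2)).eval q.1 =
      ∑ i ∈ Finset.range (R.natDegree + 1), (R.coeff i).eval q.2 * q.1 ^ i := by
    intro q
    rw [eval_map, eval₂_eq_sum_range]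
    rfl
  simp only [h]
  refine continuous_finsetSum _ fun i _ => ?_
  exact ((R.coeff i).continuous.comp continuous_snd).mul (continuous_fst.pow i)

open Polynomial in
lemma exists_trailing {R : Type} [CommRing R] {P : R[X]} (hP : P ≠ 0) :
    ∃ (n : ℕ) (P1 : R[X]), P = X ^ n * P1 ∧ P1.coeff 0 ≠ 0 := by
  have hdvd : X ^ P.natTrailingDegree ∣ P := by
    rw [X_pow_dvd_iff]
    intro d hd
    exact coeff_eq_zero_of_lt_natTrailingDegree hd
  obtain ⟨P1, hP1⟩ := hdvd
  refine ⟨P.natTrailingDegree, P1, hP1, ?_⟩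
  have h1 : (X ^ P.natTrailingDegree * P1).coeff (0 + P.natTrailingDegree) = P1.coeff 0 :=
    coeff_X_pow_mul P1 _ 0
  rw [← h1, ← hP1, zero_add]
  exact trailingCoeff_nonzero_iff_nonzero.2 hP

open Polynomial Filter in
/-- If `t → 0⁺` and `x → 0⁺` faster than every power of `t`, a nonzero polynomial in `x` and `t` does
not vanish eventually. -/
lemma eventually_ne {Q : ℝ[X][X]} (hQ : Q ≠ 0) {x t : ℝ → ℝ} (ht : Tendsto t atTop (nhds 0))
    (hx : Tendsto x atTop (nhds 0)) (ht0 : ∀ᶠ l in atTop, 0 < t l) (hx0 : ∀ᶠ l in atTop, 0 < x l)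
    (hxt : ∀ j : ℕ, Tendsto (fun l => x l / t l ^ j) atTop (nhds 0)) :
    ∀ᶠ l in atTop, (Q.map (evalRingHom (t l))).eval (x l) ≠ 0 := by
  obtain ⟨n, Q1, hQ1, hQ10⟩ := exists_trailing hQ
  obtain ⟨j, h1, hh, h10⟩ := exists_trailing hQ10
  have hlim : Tendsto (fun l => h1.eval (t l) +
      x l / t l ^ j * ((divX Q1).map (evalRingHom (t l))).eval (x l)) atTop
      (nhds (h1.eval 0 + 0 * ((divX Q1).map (evalRingHom 0)).eval 0)) := by
    refine ((h1.continuous.tendsto 0).comp ht).add ((hxt j).mul ?_)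
    have h2 : Tendsto (fun l => (x l, t l)) atTop (nhds ((0 : ℝ), (0 : ℝ))) :=
      hx.prodMk_nhds ht
    exact ((eval_cont (divX Q1)).tendsto (0, 0)).comp h2
  have hne : h1.eval 0 + 0 * ((divX Q1).map (evalRingHom 0)).eval 0 ≠ 0 := by
    rw [zero_mul, add_zero, ← coeff_zero_eq_eval_zero]
    exact h10
  filter_upwards [hlim.eventually_ne hne, ht0, hx0] with l hl hl1 hl2
  have hval : (Q.map (evalRingHom (t l))).eval (x l) = x l ^ n * (t l ^ j * (h1.eval (t l) +
      x l / t l ^ j * ((divX Q1).map (evalRingHom (t l))).eval (x l))) := by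
    conv_lhs => rw [hQ1, ← divX_mul_X_add Q1, hh]
    simp only [Polynomial.map_mul, Polynomial.map_pow, map_X, Polynomial.map_add, map_C, eval_mul,
      eval_pow, eval_X, eval_add, eval_C, coe_evalRingHom]
    have : t l ^ j ≠ 0 := pow_ne_zero _ hl1.ne'
    field_simp
    ring
  rw [hval]
  exact mul_ne_zero (pow_ne_zero _ hl2.ne') (mul_ne_zero (pow_ne_zero _ hl1.ne') hl)

open Polynomial in
/-- The restriction of a polynomial in three variables to the surface `(1/2, x, t x^2)`. -/
noncomputable def restr (p : MvPolynomial (Fin 3) ℝ) : ℝ[X][X] :=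
  MvPolynomial.eval₂ (C.comp C) (![C (C (1 / 2)), X, C X * X ^ 2] : Fin 3 → ℝ[X][X]) p

open Polynomial in
lemma restr_eval (p : MvPolynomial (Fin 3) ℝ) (x t : ℝ) :
    ((restr p).map (evalRingHom t)).eval x = MvPolynomial.eval ![1 / 2, x, t * x ^ 2] p := by
  induction p using MvPolynomial.induction_on with
  | C a => simp [restr]
  | add p q hp hq =>
    have h : restr (p + q) = restr p + restr q := MvPolynomial.eval₂_add _ _
    rw [h, Polynomial.map_add, eval_add, hp, hq, map_add]
  | mul_X p i hp =>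
    have h : restr (p * MvPolynomial.X i) =
        restr p * (![C (C (1 / 2)), X, C X * X ^ 2] : Fin 3 → ℝ[X][X]) i := by
      unfold restr
      rw [MvPolynomial.eval₂_mul, MvPolynomial.eval₂_X]
    rw [h, Polynomial.map_mul, eval_mul, hp, map_mul, MvPolynomial.eval_X]
    congr 1
    fin_cases i
    · simp
    · simp
    · simp

/-! ### The curve -/

/-- The abscissa of the curve. -/
noncomputable def xc (l : ℝ) : ℝ := Real.exp (-l) * (1 + l) / 2

/-- The ordinate of the curve. -/
noncomputable def yc (l : ℝ) : ℝ := 3 / 4 * Real.exp (-l) ^ 2 * (1 / 2 + l)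

/-- The ratio. -/
noncomputable def tc (l : ℝ) : ℝ := 3 * (1 / 2 + l) / (1 + l) ^ 2

lemma tc_mul {l : ℝ} (hl : 0 < l) : tc l * xc l ^ 2 = yc l := by
  unfold tc xc yc
  have : (1 + l) ≠ 0 := by positivity
  field_simp
  ring

/-- The list of the three words. -/
abbrev W : List (List Bool) := [[true], [true, false], [true, true, false, false]]

lemma mem_W {x y : ℝ} : (![1 / 2, x, y] : Fin W.length → ℝ) ∈ feasible W ↔
    ∃ f, IsDensity f ∧ cdf f 1 = 1 / 2 ∧ 2 * (∫ x in (0 : ℝ)..1, f x * tail f x) = x ∧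
      12 * (∫ x in (0 : ℝ)..1, f x * (cdf f x * tail f x ^ 2)) = y := by
  constructor
  · rintro ⟨f, hf, h⟩
    refine ⟨f, hf, ?_, ?_, ?_⟩
    · have h0 : (1 / 2 : ℝ) = rho [true] f := h 0
      rw [h0, rho_1]
    · have h0 : x = rho [true, false] f := h 1
      rw [h0, rho_10 hf]
    · have h0 : y = rho [true, true, false, false] f := h 2
      rw [h0, rho_1100 hf]
  · rintro ⟨f, hf, h0, h1, h2⟩
    refine ⟨f, hf, fun i => ?_⟩
    fin_cases i
    · change (1 / 2 : ℝ) = rho [true] f
      rw [rho_1, h0]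
    · change x = rho [true, false] f
      rw [rho_10 hf, h1]
    · change y = rho [true, true, false, false] f
      rw [rho_1100 hf, h2]

lemma curve_mem {l : ℝ} (hl : 0 < l) :
    (![1 / 2, xc l, yc l] : Fin W.length → ℝ) ∈ feasible W ∧
    ∀ ε > 0, (![1 / 2, xc l, yc l - ε] : Fin W.length → ℝ) ∉ feasible W := by
  set κ : ℝ := Real.exp (-l) / 4 with hκdef
  have hκ : 0 < κ := by positivity
  have hκ' : κ < 1 / 4 := by
    have : Real.exp (-l) < Real.exp 0 := Real.exp_lt_exp.2 (by linarith)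
    rw [Real.exp_zero] at this
    linarith
  have hlog : Real.log (1 / (4 * κ)) = l := by
    rw [hκdef, one_div, Real.log_inv, show 4 * (Real.exp (-l) / 4) = Real.exp (-l) by ring,
      Real.log_exp, neg_neg]
  have hA := areaVal_eq hκ hκ'
  have hQ := quadVal_eq hκ hκ'
  rw [hlog] at hA hQ
  have hx : xc l = 2 * areaVal κ := by
    rw [hA, xc, hκdef]
    ring
  have hy : yc l = 12 * quadVal κ := by
    rw [hQ, yc, hκdef]
    ring
  constructor
  · rw [mem_W]
    refine ⟨ext κ, ext_isDensity hκ, (cdf_ext hκ hκ').2.2 1 (by linarith), ?_, ?_⟩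
    · rw [ext_area hκ hκ', hx]
    · rw [ext_quad hκ hκ', hy]
  · intro ε hε h
    rw [mem_W] at h
    obtain ⟨f, hf, h1, h2, h3⟩ := h
    have h4 := lower hf hκ h1 (by linarith)
    linarith

open Filter in
lemma tc_tendsto : Tendsto tc atTop (nhds 0) := by
  have h1 : Tendsto (fun l : ℝ => 3 / (1 + l)) atTop (nhds 0) :=
    Tendsto.const_div_atTop (tendsto_atTop_add_const_left _ _ tendsto_id) 3
  refine squeeze_zero' ?_ ?_ h1
  · filter_upwards [eventually_gt_atTop 0] with l hl
    unfold tc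
    positivity
  · filter_upwards [eventually_gt_atTop 0] with l hl
    unfold tc
    rw [div_le_div_iff₀ (by positivity) (by positivity)]
    nlinarith

open Filter in
lemma xc_div_tendsto (j : ℕ) : Tendsto (fun l => xc l / tc l ^ j) atTop (nhds 0) := by
  have h0 : Tendsto (fun l : ℝ => (1 + l) ^ (j + 1) * Real.exp (-(1 + l))) atTop (nhds 0) :=
    (Real.tendsto_pow_mul_exp_neg_atTop_nhds_zero (j + 1)).comp
      (tendsto_atTop_add_const_left _ _ tendsto_id)
  have h1 : Tendsto (fun l : ℝ => Real.exp 1 * ((1 + l) ^ (j + 1) * Real.exp (-(1 + l)))) atTop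
      (nhds 0) := by
    simpa using h0.const_mul (Real.exp 1)
  refine squeeze_zero' ?_ ?_ h1
  · filter_upwards [eventually_gt_atTop 0] with l hl
    unfold tc xc
    positivity
  · filter_upwards [eventually_gt_atTop 0] with l hl
    have ht : 1 / (1 + l) ≤ tc l := by
      unfold tc
      rw [div_le_div_iff₀ (by positivity) (by positivity)]
      nlinarith
    have ht0 : 0 < 1 / (1 + l) := by positivity
    have h2 : (1 / (1 + l)) ^ j ≤ tc l ^ j := pow_le_pow_left₀ ht0.le ht j
    have h3 : xc l / tc l ^ j ≤ xc l / (1 / (1 + l)) ^ j := by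
      apply div_le_div_of_nonneg_left _ (by positivity) h2
      unfold xc
      positivity
    refine h3.trans ?_
    have h4 : Real.exp 1 * ((1 + l) ^ (j + 1) * Real.exp (-(1 + l))) =
        (1 + l) ^ (j + 1) * Real.exp (-l) := by
      have : Real.exp (-l) = Real.exp 1 * Real.exp (-(1 + l)) := by
        rw [← Real.exp_add]
        congr 1
        ring
      rw [this]
      ring
    rw [h4]
    unfold xc
    rw [div_pow, one_pow, div_div_eq_mul_div, div_one, pow_succ]
    have h5 : 0 ≤ Real.exp (-l) * (1 + l) * (1 + l) ^ j := by positivity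
    nlinarith

/-- There is a finite list of distinct nonempty words (namely `1, 10, 1100`) whose feasibility set is
not semi-algebraic. -/
theorem result : ∃ W : List (List Bool), W.Nodup ∧ (∀ w ∈ W, w ≠ []) ∧
    ¬ IsSemialgebraic (feasible W) := by
  refine ⟨W, by decide, by decide, ?_⟩
  rintro ⟨T, hT⟩
  change List (MvPolynomial (Fin 3) ℝ × List (MvPolynomial (Fin 3) ℝ)) at T
  have hxt := xc_div_tendsto
  have hx : Filter.Tendsto xc Filter.atTop (nhds 0) := by simpa using hxt 0
  have hev : ∀ p : MvPolynomial (Fin 3) ℝ, ∀ᶠ l in Filter.atTop,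
      restr p = 0 ∨ MvPolynomial.eval ![1 / 2, xc l, yc l] p ≠ 0 := by
    intro p
    by_cases hp : restr p = 0
    · exact Filter.Eventually.of_forall fun _ => Or.inl hp
    · have h1 := eventually_ne hp tc_tendsto hx
        (by filter_upwards [Filter.eventually_gt_atTop 0] with l hl; unfold tc; positivity)
        (by filter_upwards [Filter.eventually_gt_atTop 0] with l hl; unfold xc; positivity) hxt
      filter_upwards [h1, Filter.eventually_gt_atTop 0] with l hl hl0
      right
      rw [restr_eval, tc_mul hl0] at hl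
      exact hl
  have hev2 : ∀ᶠ l in Filter.atTop, ∀ c ∈ T,
      (restr c.1 = 0 ∨ MvPolynomial.eval ![1 / 2, xc l, yc l] c.1 ≠ 0) := by
    have : ∀ᶠ l in Filter.atTop, ∀ c ∈ T.toFinset,
        (restr c.1 = 0 ∨ MvPolynomial.eval ![1 / 2, xc l, yc l] c.1 ≠ 0) :=
      (Finset.eventually_all _).2 fun c _ => hev c.1
    filter_upwards [this] with l hl c hc
    exact hl c (List.mem_toFinset.2 hc)
  obtain ⟨l, hl, hl0⟩ := (hev2.and (Filter.eventually_gt_atTop 0)).exists
  obtain ⟨hmem, hnot⟩ := curve_mem hl0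
  rw [hT] at hmem
  obtain ⟨c, hc, hc1, hc2⟩ := hmem
  have hxpos : 0 < xc l := by unfold xc; positivity
  have hr : restr c.1 = 0 := (hl c hc).resolve_right (fun h => h hc1)
  -- the polynomial vanishes on the whole vertical line
  have h0 : ∀ ε : ℝ, MvPolynomial.eval ![1 / 2, xc l, yc l - ε] c.1 = 0 := by
    intro ε
    have h1 := restr_eval c.1 (xc l) ((yc l - ε) / xc l ^ 2)
    rw [hr] at h1
    simp only [Polynomial.map_zero, Polynomial.eval_zero] at h1
    rw [div_mul_cancel₀ _ (pow_ne_zero 2 hxpos.ne')] at h1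
    exact h1.symm
  -- the strict inequalities persist
  have hq : ∀ᶠ ε in nhdsWithin (0 : ℝ) (Ioi 0), ∀ q ∈ c.2.toFinset,
      0 < MvPolynomial.eval ![1 / 2, xc l, yc l - ε] q := by
    refine (Finset.eventually_all _).2 fun q hq => ?_
    have hcont : Continuous fun ε : ℝ => MvPolynomial.eval ![1 / 2, xc l, yc l - ε] q := by
      have h1 : Continuous fun ε : ℝ => (![1 / 2, xc l, yc l - ε] : Fin 3 → ℝ) := by
        refine continuous_pi fun i => ?_
        fin_cases i
        · exact continuous_const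
        · exact continuous_const
        · exact continuous_const.sub continuous_id
      exact (MvPolynomial.continuous_eval q).comp h1
    have h2 : 0 < MvPolynomial.eval ![1 / 2, xc l, yc l - 0] q := by
      rw [sub_zero]
      exact hc2 q (List.mem_toFinset.1 hq)
    exact mem_nhdsWithin_of_mem_nhds (hcont.continuousAt.eventually (lt_mem_nhds h2))
  obtain ⟨ε, hε, hε0⟩ := (hq.and self_mem_nhdsWithin).exists
  apply hnot ε hε0
  rw [hT]
  exact ⟨c, hc, h0 ε, fun q hq' => hε q (List.mem_toFinset.2 hq')⟩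

end Pool.Agent.Results.MP_76c07a_co.NotSemialgebraic
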